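import Pool.Agent.Run7.h513.pate.Iface

/-!
# The pieces P1 and P2 of `Run7.h513.Pate` (helper586)
-/

set_option autoImplicit false
open scoped ComplexConjugate Nat

namespace Pool.Agent.Run7.h586.Pate

open MvPolynomial Finset
open Pool.Agent.Run7.h513.Pate

/-! ### P2 -/

theorem perm_col {k : ℕ} (M : Matrix (Fin (k + 1)) (Fin (k + 1)) ℂ) :
    M.permanent = ∑ i, M i 0 * (M.submatrix i.succAbove Fin.succ).permanent := by
  rw [Matrix.permanent, ← (Equiv.Perm.decomposeFin (n := k)).symm.sum_comp, Fintype.sum_prod_type]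
  refine Finset.sum_congr rfl fun p _ => ?_
  have h1 : ∀ σ : Equiv.Perm (Fin k), ∏ i, M (Equiv.Perm.decomposeFin.symm (p, σ) i) i =
      M p 0 * ∏ i : Fin k, M (Equiv.swap 0 p (σ i).succ) i.succ := by
    intro σ
    rw [Fin.prod_univ_succ, Equiv.Perm.decomposeFin_symm_apply_zero]
    congr 1
    refine Finset.prod_congr rfl fun i _ => ?_
    rw [Equiv.Perm.decomposeFin_symm_apply_succ]
  rw [Finset.sum_congr rfl fun σ _ => h1 σ, ← Finset.mul_sum]
  congr 1
  refine Fin.cases ?_ (fun i => ?_) p
  · simp [Matrix.permanent]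
  · rw [← Matrix.permanent_permute_cols i.cycleRange]
    unfold Matrix.permanent
    refine Finset.sum_congr rfl fun σ _ => Finset.prod_congr rfl fun j _ => ?_
    simp only [Matrix.submatrix_apply, id, Fin.succAbove_cycleRange]

theorem t_P2 : PieceP2 := by
  intro k M
  rw [← Matrix.permanent_transpose, perm_col]
  refine Finset.sum_congr rfl fun j _ => ?_
  rw [Matrix.transpose_apply, ← Matrix.transpose_submatrix, Matrix.permanent_transpose]

/-! ### P1 -/

theorem fi_finite {r : ℕ} (P Q : MvPolynomial (Fin r) ℂ) :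
    (Function.support fun m : Fin r →₀ ℕ => (W m : ℂ) * (conj (coeff m P) * coeff m Q)).Finite := by
  refine (P.support.finite_toSet).subset ?_
  intro m hm
  by_contra h
  apply hm
  have h0 : coeff m P = 0 := notMem_support_iff.1 h
  simp only [h0, map_zero, zero_mul, mul_zero]

theorem fi_summable {r : ℕ} (P Q : MvPolynomial (Fin r) ℂ) :
    Summable fun m : Fin r →₀ ℕ => (W m : ℂ) * (conj (coeff m P) * coeff m Q) :=
  summable_of_hasFiniteSupport (fi_finite P Q)

theorem W_add {r : ℕ} (m : Fin r →₀ ℕ) (i : Fin r) :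
    W (m + Finsupp.single i 1) = ((m i : ℝ) + 1) * W m := by
  unfold W
  have h : ∀ l, ((((m + Finsupp.single i 1 : Fin r →₀ ℕ) l)! : ℕ) : ℝ) =
      (if l = i then ((m i : ℝ) + 1) else 1) * ((m l)! : ℝ) := by
    intro l
    by_cases hl : l = i
    · subst hl
      rw [if_pos rfl, Finsupp.add_apply, Finsupp.single_eq_same, Nat.factorial_succ]
      push_cast
      ring
    · rw [if_neg hl, one_mul, Finsupp.add_apply, Finsupp.single_eq_of_ne hl, add_zero]
  rw [Finset.prod_congr rfl fun l _ => h l, Finset.prod_mul_distrib, Finset.prod_ite_eq' Finset.univ i,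
    if_pos (Finset.mem_univ _)]

theorem fi_X {r : ℕ} (i : Fin r) (P Q : MvPolynomial (Fin r) ℂ) :
    fi (X i * P) Q = fi P (pderiv i Q) := by
  unfold fi
  have hinj : Function.Injective fun m : Fin r →₀ ℕ => m + Finsupp.single i 1 :=
    fun a b h => add_right_cancel h
  rw [← hinj.tsum_eq]
  · refine tsum_congr fun m => ?_
    rw [coeff_pderiv, W_add, mul_comm (X i) P, coeff_mul_X]
    push_cast
    ring
  · intro m hm
    by_contra h
    apply hm
    have h0 : m i = 0 := by
      by_contra h1
      apply h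
      exact ⟨m - Finsupp.single i 1,
        tsub_add_cancel_of_le (Finsupp.single_le_iff.2 (Nat.one_le_iff_ne_zero.2 h1))⟩
    have h2 : coeff m (X i * P) = 0 := by
      rw [coeff_X_mul', if_neg (by simpa using h0)]
    simp only [h2, map_zero, zero_mul, mul_zero]

theorem t_P1 : PieceP1 := by
  intro r
  refine ⟨fi_X, fun P Q R => ?_, fun P Q R => ?_, fun c P Q => ?_, fun c P Q => ?_, ?_⟩
  · unfold fi
    rw [← (fi_summable P R).tsum_add (fi_summable Q R)]
    refine tsum_congr fun m => ?_
    rw [coeff_add, map_add]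
    ring
  · unfold fi
    rw [← (fi_summable P Q).tsum_add (fi_summable P R)]
    refine tsum_congr fun m => ?_
    rw [coeff_add]
    ring
  · unfold fi
    rw [← tsum_mul_left]
    refine tsum_congr fun m => ?_
    rw [coeff_C_mul, map_mul]
    ring
  · unfold fi
    rw [← tsum_mul_left]
    refine tsum_congr fun m => ?_
    rw [coeff_C_mul]
    ring
  · unfold fi
    rw [tsum_eq_single 0]
    · simp [W]
    · intro m hm
      rw [coeff_one, if_neg (Ne.symm hm)]
      simp

end Pool.Agent.Run7.h586.Pate
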